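import Mathlib

/-!
# Sets missing a residue class modulo each prime up to `y`
-/

set_option autoImplicit false

namespace Pool.Agent.RTH

/-- Some residue class modulo `q` contains no element of `S`. -/
def MissesClass (S : Finset ℤ) (q : ℕ) : Prop := ∃ r : ℤ, ∀ s ∈ S, ¬ ((q : ℤ) ∣ s - r)

/-- The sets of integers in `[0, x)` that miss a class modulo each prime `q ≤ y`. -/
def Sifted (x y : ℝ) (S : Finset ℤ) : Prop :=
  (∀ s ∈ S, 0 ≤ s ∧ (s : ℝ) < x) ∧ ∀ q : ℕ, q.Prime → (q : ℝ) ≤ y → MissesClass S q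

/-- `rhoUpTo x y`: the largest size of a set of integers in `[0, x)` that misses a residue class modulo
each prime `q ≤ y`. -/
noncomputable def rhoUpTo (x y : ℝ) : ℕ := sSup {k | ∃ S : Finset ℤ, S.card = k ∧ Sifted x y S}

/-- `rhoStar x`: the largest size of a set of integers in `[0, x)` that misses a residue class modulo
every prime. -/
noncomputable def rhoStar (x : ℝ) : ℕ :=
  sSup {k | ∃ S : Finset ℤ, S.card = k ∧ (∀ s ∈ S, 0 ≤ s ∧ (s : ℝ) < x) ∧
    ∀ q : ℕ, q.Prime → MissesClass S q}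

end Pool.Agent.RTH
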