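import Pool.Agent.RTH.Upper
import Pool.Agent.H3.HR.Fin

/-!
# The asymptotic question in terms of the primes up to `x ^ θ`
-/

set_option autoImplicit false

open Finset Filter Topology

namespace Pool.Agent.RTH

noncomputable section

theorem pi_le_rhoStar : ∃ x₀ : ℝ, ∀ x : ℝ, x₀ ≤ x → (Nat.primeCounting ⌊x⌋₊ : ℝ) ≤ (rhoStar x : ℝ) := by
  obtain ⟨x₀, hx₀⟩ := Pool.Agent.H3.HR.excess 1 one_pos
  have hev : ∀ᶠ x : ℝ in atTop, 1 ≤ Pool.Agent.H6.HR.LL x := Pool.Agent.H6.HR.ev_v 1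
  obtain ⟨x₁, hx₁⟩ := (hev.and (eventually_ge_atTop 1)).exists_forall_of_atTop
  refine ⟨max x₀ x₁, fun x hx => ?_⟩
  obtain ⟨S, -, h1, h2, h3⟩ := hx₀ x ((le_max_left _ _).trans hx)
  obtain ⟨h4, h5⟩ := hx₁ x ((le_max_right _ _).trans hx)
  have h6 : S.card ≤ rhoStar x := all_le h1 h2
  have h7 : (S.card : ℝ) ≤ (rhoStar x : ℝ) := by exact_mod_cast h6
  have h8 : 0 ≤ Real.log (Real.log (Real.log x)) := Real.log_nonneg h4
  have h9 : 0 ≤ (2 - 1) * x * Real.log (Real.log (Real.log x)) / (Real.log x) ^ 2 := by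
    apply div_nonneg _ (by positivity)
    have : 0 ≤ x := by linarith
    have : 0 ≤ (2 - 1) * x := by linarith
    positivity
  linarith

theorem pi_pos {x : ℝ} (hx : 2 ≤ x) : (0 : ℝ) < (Nat.primeCounting ⌊x⌋₊ : ℝ) := by
  have h1 : 2 ≤ ⌊x⌋₊ := Nat.le_floor (by exact_mod_cast hx)
  have h2 : Nat.primeCounting 2 ≤ Nat.primeCounting ⌊x⌋₊ := Nat.monotone_primeCounting h1
  have h3 : Nat.primeCounting 2 = 1 := by decide
  have h4 : 0 < Nat.primeCounting ⌊x⌋₊ := by omega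
  exact_mod_cast h4

theorem equiv : Tendsto (fun x : ℝ => (rhoStar x : ℝ) / (Nat.primeCounting ⌊x⌋₊ : ℝ)) atTop (𝓝 1) ↔
    ∀ ε : ℝ, 0 < ε → ∃ θ : ℝ, 0 < θ ∧ θ < 1 ∧ ∃ x₀ : ℝ, ∀ x : ℝ, x₀ ≤ x →
      (rhoUpTo x (x ^ θ) : ℝ) ≤ (1 + ε) * (Nat.primeCounting ⌊x⌋₊ : ℝ) := by
  constructor
  · intro h ε hε
    set δ := min ε 1 / 8 with hδ
    have hδ0 : 0 < δ := by have := lt_min hε one_pos; positivity
    have hδ1 : δ ≤ 1 / 8 := by
      have := min_le_right ε 1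
      linarith
    have hδ2 : 8 * δ ≤ ε := by
      have := min_le_left ε 1
      linarith
    obtain ⟨x₀, hx₀⟩ := upper (1 - δ) δ (by linarith) (by linarith) hδ0
    have hev := ((tendsto_order.1 h).2 (1 + δ) (by linarith)).and (eventually_ge_atTop 2)
    obtain ⟨x₁, hx₁⟩ := hev.exists_forall_of_atTop
    refine ⟨1 - δ, by linarith, by linarith, max x₀ x₁, fun x hx => ?_⟩
    have h1 := hx₀ x ((le_max_left _ _).trans hx)
    obtain ⟨h2, h3⟩ := hx₁ x ((le_max_right _ _).trans hx)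
    have hp := pi_pos h3
    rw [div_lt_iff₀ hp] at h2
    set p := (Nat.primeCounting ⌊x⌋₊ : ℝ)
    set R := (rhoUpTo x (x ^ (1 - δ)) : ℝ)
    have h4 : (1 - δ) * (1 - δ) * R ≤ (1 + δ) * p := h1.trans h2.le
    have h5 : (1 + δ) ≤ (1 + ε) * ((1 - δ) * (1 - δ)) := by
      have e1 : 1 - 2 * δ ≤ (1 - δ) * (1 - δ) := by nlinarith
      have e2 : (1 + ε) * (1 - 2 * δ) ≤ (1 + ε) * ((1 - δ) * (1 - δ)) :=
        mul_le_mul_of_nonneg_left e1 (by linarith)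
      have e3 : ε * (2 * δ) ≤ ε * (1 / 4) := mul_le_mul_of_nonneg_left (by linarith) hε.le
      nlinarith
    have h6 : (1 - δ) * (1 - δ) * R ≤ (1 - δ) * (1 - δ) * ((1 + ε) * p) := by
      have := mul_le_mul_of_nonneg_right h5 hp.le
      calc (1 - δ) * (1 - δ) * R ≤ (1 + δ) * p := h4
        _ ≤ (1 + ε) * ((1 - δ) * (1 - δ)) * p := this
        _ = _ := by ring
    have h7 : 0 < (1 - δ) * (1 - δ) := mul_pos (by linarith) (by linarith)
    exact le_of_mul_le_mul_left h6 h7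
  · intro h
    rw [Metric.tendsto_atTop]
    intro ε hε
    obtain ⟨θ, hθ0, hθ1, x₀, hx₀⟩ := h (ε / 2) (by positivity)
    obtain ⟨x₁, hx₁⟩ := pi_le_rhoStar
    refine ⟨max (max x₀ x₁) 2, fun x hx => ?_⟩
    have h1 := hx₀ x ((le_max_left _ _).trans ((le_max_left _ _).trans hx))
    have h2 := hx₁ x ((le_max_right _ _).trans ((le_max_left _ _).trans hx))
    have hp := pi_pos ((le_max_right _ _).trans hx)
    have h3 : (rhoStar x : ℝ) ≤ (rhoUpTo x (x ^ θ) : ℝ) := by exact_mod_cast rhoStar_le x (x ^ θ)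
    rw [Real.dist_eq, abs_lt]
    constructor
    · have : 1 ≤ (rhoStar x : ℝ) / (Nat.primeCounting ⌊x⌋₊ : ℝ) := by rwa [le_div_iff₀ hp, one_mul]
      linarith
    · have : (rhoStar x : ℝ) / (Nat.primeCounting ⌊x⌋₊ : ℝ) ≤ 1 + ε / 2 := by
        rw [div_le_iff₀ hp]
        linarith
      linarith

end

end Pool.Agent.RTH
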