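import Pool.Agent.RTH.Tail

/-!
# Large sets missing a class modulo each prime up to `x ^ θ`
-/

set_option autoImplicit false

open Finset Filter Topology Pool.Agent.H6.HR

namespace Pool.Agent.RTH

noncomputable section

/-- The set for a given sifting limit `y` and a given `z`. -/
theorem core : ∃ A : ℝ, 1 ≤ A ∧ ∀ (x X τ : ℝ) (z y : ℕ), 4 ≤ x → 8 ≤ Real.log x → 60 ≤ z → z ≤ y →
    1 ≤ X → Real.log X ≤ Real.log x / 4 → Real.log z ≤ Real.log x / 4 →
    A * X ^ (-(1 / Real.log z)) ≤ τ → (z : ℝ) ≤ x → τ ≤ 1 →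
    ∃ T : Finset ℤ, (∀ s ∈ T, 0 ≤ s ∧ (s : ℝ) < x) ∧
    (∀ q : ℕ, q.Prime → q ≤ y → ∃ r : ℤ, ∀ s ∈ T, ¬ ((q : ℤ) ∣ s - r)) ∧
    x / Real.log x * (1 + Real.log z / Real.log x - 2 * τ - A / Real.log x) - 2 * (X + 1) * (1 + (y : ℝ)) ≤
      (T.card : ℝ) := by
  classical
  obtain ⟨C2, hC2, hsum⟩ := Pool.Agent.H3.HR.main_sum'
  obtain ⟨K, hK, hbl⟩ := Pool.Agent.H3.HR.box_log
  obtain ⟨E, hE, htl⟩ := tail
  refine ⟨E + C2 + K + 10, by linarith, ?_⟩
  intro x X τ z y hx4 hL8 hz60 hzy hX1 hlX hlz hτ hzx hτ1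
  set L := Real.log x with hL
  set A := E + C2 + K + 10 with hA
  have hL0 : 0 < L := by linarith
  have hx0 : 0 < x := by linarith
  have hexpL : Real.exp L = x := Real.exp_log hx0
  have hPz : ∀ w ∈ P z, w.Prime := fun w hw => (mem_P.mp hw).1
  have hz1 : (60 : ℝ) ≤ z := by exact_mod_cast hz60
  have hz0 : (0 : ℝ) < z := by linarith
  have hlz0 : 0 ≤ Real.log z := Real.log_nonneg (by linarith)
  have hlX0 : 0 ≤ Real.log X := Real.log_nonneg hX1
  have hX0 : 0 < X := by linarith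
  -- the exponent bound
  set V := ⌈4 * L⌉₊ with hV
  have hV1 : 4 * L ≤ V := Nat.le_ceil _
  have hVone : 1 ≤ V := by
    rw [hV]
    exact Nat.one_le_iff_ne_zero.mpr (Nat.ceil_pos.mpr (by linarith)).ne'
  obtain ⟨hW1, hW2⟩ := sum_wt_ge hPz V
  set W := ∑ m ∈ Pool.Agent.H6.HR.box (P z) V, wt (P z) m with hW
  have hexpLge : 1 + L + L ^ 2 / 2 ≤ Real.exp L := Real.quadratic_le_exp_of_nonneg hL0.le
  have h2V : x ^ 2 ≤ (2 : ℝ) ^ V := by
    have f1 : (2 : ℝ) ^ V = Real.exp (V * Real.log 2) := by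
      rw [← Real.rpow_natCast, Real.rpow_def_of_pos (by norm_num), mul_comm]
    have f2 : x ^ 2 = Real.exp (2 * L) := by
      rw [← hexpL, ← Real.exp_nat_mul]
      norm_num
    have h5 := Real.log_two_gt_d9
    rw [f1, f2]
    apply Real.exp_le_exp.mpr
    have f3 : (4 * L) * (69 / 100) ≤ V * Real.log 2 :=
      mul_le_mul hV1 (by linarith) (by norm_num) (by positivity)
    linarith
  have hWlow : 1 - 1 / L ≤ W := by
    refine le_trans ?_ hW1
    have f1 : ((P z).card : ℝ) ≤ x := by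
      calc ((P z).card : ℝ) ≤ z := by exact_mod_cast Pool.Agent.H3.HR.card_P_le z
        _ ≤ x := hzx
    have f2 : ((2 : ℝ) ^ V)⁻¹ ≤ (x ^ 2)⁻¹ := inv_anti₀ (by positivity) h2V
    have f3 : ((P z).card : ℝ) * ((2 : ℝ) ^ V)⁻¹ ≤ 1 / L := by
      calc ((P z).card : ℝ) * ((2 : ℝ) ^ V)⁻¹ ≤ x * (x ^ 2)⁻¹ := mul_le_mul f1 f2 (by positivity) hx0.le
        _ = 1 / x := by field_simp
        _ ≤ 1 / L := by
            apply one_div_le_one_div_of_le hL0
            rw [← hexpL]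
            have : 0 ≤ L ^ 2 / 2 := by positivity
            linarith
    linarith
  have hb := hbl z V (by omega) hVone
  set D := ∑ m ∈ Pool.Agent.H6.HR.box (P z) V, wt (P z) m * Real.log (2 * m) with hD
  obtain ⟨ht1, ht2⟩ := htl z V X hz60 hX1
  set τ' := E * X ^ (-(1 / Real.log z)) with hτ'
  have hpw : 0 ≤ X ^ (-(1 / Real.log z)) := by positivity
  have hτ'0 : 0 ≤ τ' := by rw [hτ']; positivity
  have hτ'τ : τ' ≤ τ := by
    refine le_trans ?_ hτ
    rw [hτ']
    exact mul_le_mul_of_nonneg_right (by rw [hA]; linarith) hpw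
  set M := (Pool.Agent.H6.HR.box (P z) V).filter (fun m : ℕ => (m : ℝ) ≤ X) with hM
  set W' := ∑ m ∈ M, wt (P z) m with hW'
  set D' := ∑ m ∈ M, wt (P z) m * Real.log (2 * m) with hD'
  have hWsplit : W = W' + ∑ m ∈ (Pool.Agent.H6.HR.box (P z) V).filter (fun m : ℕ => ¬ (m : ℝ) ≤ X), wt (P z) m :=
    (Finset.sum_filter_add_sum_filter_not _ _ _).symm
  have hDsplit : D = D' + ∑ m ∈ (Pool.Agent.H6.HR.box (P z) V).filter (fun m : ℕ => ¬ (m : ℝ) ≤ X),
      wt (P z) m * Real.log (2 * m) :=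
    (Finset.sum_filter_add_sum_filter_not _ _ _).symm
  have hW'low : 1 - 1 / L - τ ≤ W' := by linarith
  have hW'up : W' ≤ 1 := by
    have : 0 ≤ ∑ m ∈ (Pool.Agent.H6.HR.box (P z) V).filter (fun m : ℕ => ¬ (m : ℝ) ≤ X), wt (P z) m :=
      Finset.sum_nonneg (fun m _ => wt_nonneg hPz m)
    linarith
  have hW'0 : 0 ≤ W' := Finset.sum_nonneg (fun m _ => wt_nonneg hPz m)
  have hD'low : D - L * τ ≤ D' := by
    have f1 : (1 + Real.log X + Real.log z) * τ' ≤ L * τ := by
      apply mul_le_mul _ hτ'τ hτ'0 hL0.le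
      linarith
    linarith
  have hMbox : ∀ m ∈ M, m ≠ 0 ∧ ∀ p ∈ m.primeFactors, p ≤ z := by
    intro m hm
    obtain ⟨h1, h2, -⟩ := box_mem hPz (Finset.mem_filter.mp hm).1
    exact ⟨h1, fun p hp => (mem_P.mp (h2 p hp)).2⟩
  have hMX : ∀ m ∈ M, (m : ℝ) ≤ X := fun m hm => (Finset.mem_filter.mp hm).2
  have hs : ∀ m ∈ M, 1 ≤ m ∧ Real.log (2 * m) ≤ L / 2 := by
    intro m hm
    have hm1 : 1 ≤ m := Nat.one_le_iff_ne_zero.mpr (hMbox m hm).1
    have hm0 : (0 : ℝ) < m := by exact_mod_cast hm1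
    refine ⟨hm1, ?_⟩
    rw [Real.log_mul (by norm_num) hm0.ne']
    have f1 := Real.log_le_log hm0 (hMX m hm)
    have f2 := Real.log_two_lt_d9
    linarith
  -- the sieve
  obtain ⟨c, T, hTN, hTc, hTp, hTcard⟩ := exists_T z y (NN x) M hMbox hzy
  have hNx : 2 * (NN x : ℝ) < x := by
    unfold NN
    have h1 : 0 < ⌈x / 2⌉₊ := Nat.ceil_pos.mpr (by linarith)
    have h2 := Nat.ceil_lt_add_one (show 0 ≤ x / 2 by linarith)
    rw [Nat.cast_sub h1]
    push_cast
    linarith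
  have hfloor : ∀ m ∈ M, (Nat.primeCounting ⌊x / (2 * m)⌋₊ : ℝ) ≤
      (Nat.primeCounting (NN x / m) : ℝ) + 1 := by
    intro m hm
    have hm0 : 0 < m := Nat.pos_of_ne_zero (hMbox m hm).1
    have hm0' : (0 : ℝ) < m := by exact_mod_cast hm0
    have h1 : ⌊x / (2 * m)⌋₊ ≤ NN x / m + 1 := by
      have h2 : x / (2 * m) ≤ ((NN x + 1 : ℕ) : ℝ) / m := by
        rw [div_le_div_iff₀ (by positivity) hm0']
        have h3 : x / 2 ≤ ((NN x + 1 : ℕ) : ℝ) := by
          unfold NN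
          have h4 : 0 < ⌈x / 2⌉₊ := Nat.ceil_pos.mpr (by linarith)
          rw [Nat.sub_add_cancel h4]
          exact Nat.le_ceil _
        have h5 := mul_le_mul_of_nonneg_right h3 (show 0 ≤ 2 * (m : ℝ) by positivity)
        have h6 : x / 2 * (2 * (m : ℝ)) = x * m := by ring
        rw [← h6]
        exact h5
      calc ⌊x / (2 * m)⌋₊ ≤ ⌊((NN x + 1 : ℕ) : ℝ) / m⌋₊ := Nat.floor_le_floor h2
        _ = (NN x + 1) / m := Nat.floor_div_eq_div _ _
        _ ≤ (NN x + m) / m := Nat.div_le_div_right (by omega)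
        _ = NN x / m + 1 := Nat.add_div_right _ hm0
    have h2 : Nat.primeCounting ⌊x / (2 * m)⌋₊ ≤ Nat.primeCounting (NN x / m) + 1 :=
      (Nat.monotone_primeCounting h1).trans (Pool.Agent.H3.HR.primeCounting_succ_le _)
    exact_mod_cast h2
  have hpiy : (Nat.primeCounting y : ℝ) ≤ y := by
    rw [← card_P]
    exact_mod_cast Pool.Agent.H3.HR.card_P_le y
  have hMcard : (M.card : ℝ) ≤ X + 1 := by
    have h1 : M ⊆ Finset.Icc 1 ⌊X⌋₊ := by
      intro m hm
      rw [Finset.mem_Icc]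
      exact ⟨(hs m hm).1, Nat.le_floor (hMX m hm)⟩
    have h2 := Finset.card_le_card h1
    rw [Nat.card_Icc, Nat.add_sub_cancel] at h2
    have h3 : (M.card : ℝ) ≤ (⌊X⌋₊ : ℝ) := by exact_mod_cast h2
    have h4 := Nat.floor_le hX0.le
    linarith
  have hmain : ∑ m ∈ M, 2 * g z m * (Nat.primeCounting ⌊x / (2 * m)⌋₊ : ℝ) - 2 * (X + 1) * (1 + (y : ℝ)) ≤
      (T.card : ℝ) := by
    refine le_trans ?_ hTcard
    have h1 : ∑ m ∈ M, 2 * g z m * (Nat.primeCounting ⌊x / (2 * m)⌋₊ : ℝ) ≤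
        ∑ m ∈ M, 2 * g z m * ((Nat.primeCounting (NN x / m) : ℝ) - Nat.primeCounting y) +
        ∑ m ∈ M, 2 * (1 + (y : ℝ)) := by
      rw [← Finset.sum_add_distrib]
      apply Finset.sum_le_sum
      intro m hm
      have e1 := hfloor m hm
      have e2 := g_nonneg z m
      have e3 := Pool.Agent.H3.HR.g_le_one z m
      have e4 : (0 : ℝ) ≤ 1 + (Nat.primeCounting y : ℝ) := by positivity
      have e5 : 2 * g z m * (Nat.primeCounting ⌊x / (2 * m)⌋₊ : ℝ) ≤
          2 * g z m * ((Nat.primeCounting (NN x / m) : ℝ) + 1) :=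
        mul_le_mul_of_nonneg_left e1 (by linarith)
      have e6 : 2 * g z m * (1 + (Nat.primeCounting y : ℝ)) ≤ 2 * 1 * (1 + (Nat.primeCounting y : ℝ)) :=
        mul_le_mul_of_nonneg_right (by linarith) e4
      linarith
    rw [Finset.sum_const, nsmul_eq_mul] at h1
    have h2 : (M.card : ℝ) * (2 * (1 + (y : ℝ))) ≤ (X + 1) * (2 * (1 + (y : ℝ))) :=
      mul_le_mul_of_nonneg_right hMcard (by positivity)
    linarith
  have hS := hsum z M x hx0 (by linarith) hs
  rw [← hL, ← hW', ← hD'] at hS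
  have hlow : x / L * (1 + Real.log z / L - 2 * τ - A / L) ≤
      x * (W' / L + (W' + D') / L ^ 2 - C2 * W' / L ^ 3) := by
    have e : x * (W' / L + (W' + D') / L ^ 2 - C2 * W' / L ^ 3) =
        x / L * (W' + (W' + D') / L - C2 * W' / L ^ 2) := by
      field_simp
    rw [e]
    apply mul_le_mul_of_nonneg_left _ (by positivity)
    have hW0 : 0 ≤ W := by
      have : 1 / L ≤ 1 := by rw [div_le_one hL0]; linarith
      linarith
    have f1 : (1 - 1 / L) * Real.log z - K ≤ D := by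
      refine le_trans ?_ hb
      have g1 : (1 - 1 / L) * Real.log z ≤ W * Real.log z := mul_le_mul_of_nonneg_right hWlow hlz0
      have g2 : W * K ≤ 1 * K := mul_le_mul_of_nonneg_right hW2 hK.le
      have g3 : W * (Real.log z - K) = W * Real.log z - W * K := by ring
      linarith
    have f2 : 1 / L * Real.log z ≤ 1 := by
      rw [one_div, inv_mul_le_iff₀ hL0]
      linarith
    have f3 : Real.log z - 1 - K - L * τ ≤ D' := by
      have : (1 - 1 / L) * Real.log z = Real.log z - 1 / L * Real.log z := by ring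
      linarith
    have f4 : (Real.log z - 1 - K - L * τ) / L ≤ (W' + D') / L :=
      div_le_div_of_nonneg_right (by linarith) hL0.le
    have f5 : (Real.log z - 1 - K - L * τ) / L = Real.log z / L - (1 + K) / L - τ := by
      field_simp
      ring
    have f6 : C2 * W' / L ^ 2 ≤ C2 / L := by
      rw [div_le_div_iff₀ (by positivity) hL0]
      have g1 : C2 * W' ≤ C2 * 1 := mul_le_mul_of_nonneg_left hW'up hC2.le
      have g2 : C2 * W' * L ≤ C2 * 1 * L := mul_le_mul_of_nonneg_right g1 hL0.le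
      have g3 : C2 * L * 1 ≤ C2 * L * L := mul_le_mul_of_nonneg_left (by linarith) (by positivity)
      have g4 : C2 * L * L = C2 * L ^ 2 := by ring
      linarith
    have f7 : A / L = (E + 8) / L + C2 / L + (1 + K) / L + 1 / L := by
      rw [hA]
      ring
    have f8 : 0 ≤ (E + 8) / L := by positivity
    linarith
  -- the translate
  have hinj : Function.Injective (fun n : ℤ => n + NN x) := fun a b h => by
    dsimp only at h
    linarith
  refine ⟨T.image (fun n => n + NN x), ?_, ?_, ?_⟩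
  · intro s hs'
    rw [Finset.mem_image] at hs'
    obtain ⟨n, hn, rfl⟩ := hs'
    have h1 := hTN n hn
    refine ⟨by linarith, ?_⟩
    have h2 : n + NN x ≤ 2 * (NN x : ℤ) := by linarith
    have h3 : ((n + NN x : ℤ) : ℝ) ≤ 2 * (NN x : ℝ) := by exact_mod_cast h2
    linarith
  · intro q hq hqy
    rcases Nat.lt_or_ge z q with h' | h'
    · refine ⟨NN x, fun s hs' => ?_⟩
      rw [Finset.mem_image] at hs'
      obtain ⟨n, hn, rfl⟩ := hs'
      rw [add_sub_cancel_right]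
      exact hTp n hn q (mem_P.mpr ⟨hq, hqy⟩) h'
    · refine ⟨c q + NN x, fun s hs' => ?_⟩
      rw [Finset.mem_image] at hs'
      obtain ⟨n, hn, rfl⟩ := hs'
      have e : n + (NN x : ℤ) - (c q + NN x) = n - c q := by ring
      rw [e]
      exact hTc n hn q (mem_P.mpr ⟨hq, h'⟩)
  · rw [Finset.card_image_of_injective _ hinj]
    linarith

end

end Pool.Agent.RTH
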