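import Pool.Agent.RTH.Defs
import Pool.Agent.RTH.Lower

/-!
# The lower bound for the sets missing a class modulo each prime up to `x ^ θ`
-/

set_option autoImplicit false

open Finset Filter Topology Pool.Agent.H6.HR

namespace Pool.Agent.RTH

noncomputable section

theorem lower_half : ∃ c : ℝ, 0 < c ∧ ∀ θ : ℝ, 1 / 2 ≤ θ → θ < 1 → ∀ᶠ x : ℝ in atTop, ∃ T : Finset ℤ,
    Sifted x (x ^ θ) T ∧
    (1 + c * ((1 - θ) / (1 + Real.log (1 / (1 - θ))))) * (Nat.primeCounting ⌊x⌋₊ : ℝ) ≤ (T.card : ℝ) := by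
  obtain ⟨A, hA, hcore⟩ := core
  obtain ⟨C3, hC3, hpi⟩ := Pool.Agent.H84.Pnt.pi_two
  set t := 16 * A with ht
  have ht0 : 0 < t := by linarith
  refine ⟨1 / (8 * t), by positivity, fun θ hθ1 hθ2 => ?_⟩
  set ε := 1 - θ with hε
  have hε0 : 0 < ε := by linarith
  have hε1 : ε ≤ 1 / 2 := by linarith
  set ℓ := 1 + Real.log (1 / ε) with hℓ
  have hlog0 : 0 ≤ Real.log (1 / ε) := Real.log_nonneg (by rw [le_div_iff₀ hε0]; linarith)
  have hℓ1 : 1 ≤ ℓ := by linarith
  have hℓε : ℓ ≤ 1 / ε := by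
    have := Real.log_le_sub_one_of_pos (show 0 < 1 / ε by positivity)
    linarith
  set β := ε / (2 * t * ℓ) with hβ
  have hβ0 : 0 < β := by positivity
  have hβ4 : β ≤ 1 / 64 := by
    rw [hβ, div_le_iff₀ (by positivity)]
    have h1 : 2 * 16 * 1 ≤ 2 * t * ℓ := by
      apply mul_le_mul (by linarith) hℓ1 (by norm_num) (by positivity)
    linarith
  -- the tail
  have htail : A * Real.exp (-(t * ℓ)) ≤ β / 4 := by
    have e1 : Real.exp (-(t * ℓ)) = Real.exp (-t) * ε ^ t := by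
      rw [Real.rpow_def_of_pos hε0, ← Real.exp_add]
      congr 1
      rw [hℓ, one_div, Real.log_inv]
      ring
    have e2 : ε ^ t ≤ ε ^ 2 := by
      rw [← Real.rpow_natCast]
      exact Real.rpow_le_rpow_of_exponent_ge hε0 (by linarith) (by push_cast; linarith)
    have e3 : 8 * t * A ≤ Real.exp t := by
      have h1 := Real.quadratic_le_exp_of_nonneg ht0.le
      have h2 : t ^ 2 / 2 = 8 * t * A := by rw [ht]; ring
      linarith
    have e4 : Real.exp (-t) ≤ 1 / (8 * t * A) := by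
      rw [Real.exp_neg, ← one_div]
      exact one_div_le_one_div_of_le (by positivity) e3
    have e5 : ε ^ 2 ≤ ε / ℓ := by
      rw [le_div_iff₀ (by linarith)]
      have := mul_le_mul_of_nonneg_left hℓε (show 0 ≤ ε ^ 2 by positivity)
      have h2 : ε ^ 2 * (1 / ε) = ε := by field_simp
      linarith
    calc A * Real.exp (-(t * ℓ)) = A * (Real.exp (-t) * ε ^ t) := by rw [e1]
      _ ≤ A * (1 / (8 * t * A) * (ε / ℓ)) := by
          apply mul_le_mul_of_nonneg_left _ (by linarith)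
          exact mul_le_mul e4 (e2.trans e5) (by positivity) (by positivity)
      _ = β / 4 := by
          rw [hβ]
          field_simp
          norm_num
  have hβtail : β / 2 * (1 - 1 / 8) = β / 2 - β / 16 := by ring
  have ev1 : ∀ᶠ x : ℝ in atTop, 60 ≤ x ^ β - 1 := by
    have := (tendsto_rpow_atTop hβ0).eventually_ge_atTop 61
    filter_upwards [this] with x hx
    linarith
  have ev2 : ∀ᶠ x : ℝ in atTop, 128 * Real.log x ≤ β * x ^ (ε / 2) := by
    have h := (isLittleO_log_rpow_atTop (show 0 < ε / 2 by positivity)).bound (show 0 < β / 128 by positivity)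
    filter_upwards [h, eventually_ge_atTop 1] with x hx hx1
    rw [Real.norm_of_nonneg (Real.log_nonneg hx1), Real.norm_of_nonneg (by positivity)] at hx
    linarith
  filter_upwards [ev1, ev2, ev_L 8, eventually_ge_atTop 4, ev_L (16 * (2 * (1 + C3) + (A + 1)) / (3 * β))]
    with x h1 h2 h3 h4 h5
  set L := Real.log x with hL
  have hL0 : 0 < L := by linarith
  have hx0 : 0 < x := by linarith
  have hx1 : 1 ≤ x := by linarith
  set z := ⌊x ^ β⌋₊ with hz
  set y := ⌊x ^ θ⌋₊ with hy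
  set X := x ^ (ε / 2) with hX
  have hz60 : 60 ≤ z := Nat.le_floor (by push_cast; linarith)
  have hzβ : (z : ℝ) ≤ x ^ β := Nat.floor_le (by positivity)
  have hzβ' : x ^ β / 2 ≤ z := by
    have := Nat.lt_floor_add_one (x ^ β)
    rw [← hz] at this
    linarith
  have hzpos : (0 : ℝ) < z := by exact_mod_cast (by omega : 0 < z)
  have hlogβ : Real.log (x ^ β) = β * L := Real.log_rpow hx0 β
  have hlz : Real.log z ≤ β * L := by
    rw [← hlogβ]
    exact Real.log_le_log hzpos hzβ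
  have hlz' : β * L - 1 ≤ Real.log z := by
    have f1 := Real.log_le_log (by positivity) hzβ'
    rw [Real.log_div (by positivity) (by norm_num), hlogβ] at f1
    have := Real.log_two_lt_d9
    linarith
  have hlz0 : 0 < Real.log z := Real.log_pos (by
    have : (60 : ℝ) ≤ z := by exact_mod_cast hz60
    linarith)
  have hX1 : 1 ≤ X := Real.one_le_rpow hx1 (by positivity)
  have hlX : Real.log X = ε / 2 * L := Real.log_rpow hx0 _
  have hzy : z ≤ y := Nat.floor_le_floor (Real.rpow_le_rpow_of_exponent_le hx1 (by linarith))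
  have hcond : A * X ^ (-(1 / Real.log z)) ≤ β / 4 := by
    refine le_trans ?_ htail
    apply mul_le_mul_of_nonneg_left _ (by linarith)
    rw [Real.rpow_def_of_pos (by linarith), hlX]
    apply Real.exp_le_exp.mpr
    have f1 : t * ℓ * Real.log z ≤ ε / 2 * L := by
      calc t * ℓ * Real.log z ≤ t * ℓ * (β * L) := mul_le_mul_of_nonneg_left hlz (by positivity)
        _ = ε / 2 * L := by rw [hβ]; field_simp
    have f2 : t * ℓ ≤ ε / 2 * L * (1 / Real.log z) := by
      rw [mul_one_div, le_div_iff₀ hlz0]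
      exact f1
    linarith
  have hzx : (z : ℝ) ≤ x := hzβ.trans (by
    calc x ^ β ≤ x ^ (1 : ℝ) := Real.rpow_le_rpow_of_exponent_le hx1 (by linarith)
      _ = x := Real.rpow_one x)
  have hβL : β * L ≤ L / 4 := by
    have := mul_le_mul_of_nonneg_right hβ4 hL0.le
    linarith
  have hεL : ε / 2 * L ≤ L / 4 := by
    have := mul_le_mul_of_nonneg_right hε1 hL0.le
    linarith
  obtain ⟨T, hT1, hT2, hT3⟩ := hcore x X (β / 4) z y h4 h3 hz60 hzy hX1 (by linarith) (by linarith) hcond hzx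
    (by linarith)
  refine ⟨T, ⟨hT1, fun q hq hqy => hT2 q hq (Nat.le_floor hqy)⟩, ?_⟩
  refine le_trans ?_ hT3
  -- the error from the large primes
  have hyx : (y : ℝ) ≤ x ^ θ := Nat.floor_le (by positivity)
  have hxθ1 : 1 ≤ x ^ θ := Real.one_le_rpow hx1 (by linarith)
  have herr : 2 * (X + 1) * (1 + (y : ℝ)) ≤ β / 16 * (x / L) := by
    have f1 : 2 * (X + 1) * (1 + (y : ℝ)) ≤ 2 * (2 * X) * (2 * x ^ θ) := by
      apply mul_le_mul (by linarith) (by linarith) (by positivity) (by positivity)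
    have f2 : X * X * x ^ θ = x := by
      rw [hX, ← Real.rpow_add hx0, ← Real.rpow_add hx0, hε]
      have : (1 - θ) / 2 + (1 - θ) / 2 + θ = 1 := by ring
      rw [this, Real.rpow_one]
    have f3 : 128 * L * (X * x ^ θ) ≤ β * X * (X * x ^ θ) := mul_le_mul_of_nonneg_right h2 (by positivity)
    have f4 : β * X * (X * x ^ θ) = β * x := by
      calc β * X * (X * x ^ θ) = β * (X * X * x ^ θ) := by ring
        _ = β * x := by rw [f2]
    rw [f4] at f3
    have f5 : 8 * (X * x ^ θ) ≤ β / 16 * (x / L) := by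
      have : β / 16 * (x / L) = β * x / (16 * L) := by ring
      rw [this, le_div_iff₀ (by positivity)]
      linarith
    linarith
  have hpi1 : (Nat.primeCounting ⌊x⌋₊ : ℝ) ≤ x / L * (1 + (1 + C3) / L) := by
    have f1 := (abs_le.mp (hpi x (by linarith))).2
    rw [← hL] at f1
    have f2 : C3 * (x / L ^ 3) ≤ C3 * (x / L ^ 2) := by
      apply mul_le_mul_of_nonneg_left _ hC3.le
      apply div_le_div_of_nonneg_left hx0.le (by positivity)
      exact pow_le_pow_right₀ (by linarith) (by norm_num)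
    have f3 : x / L * (1 + (1 + C3) / L) = x / L + x / L ^ 2 + C3 * (x / L ^ 2) := by
      field_simp
      ring
    linarith
  have hgain : 1 / (8 * t) * (ε / ℓ) = β / 4 := by
    rw [hβ]
    field_simp
    norm_num
  rw [hgain]
  have hR : (2 * (1 + C3) + (A + 1)) / L ≤ 3 * β / 16 := by
    rw [div_le_iff₀ hL0]
    rw [div_le_iff₀ (by positivity)] at h5
    linarith
  have hsplit : (2 * (1 + C3) + (A + 1)) / L = 2 * ((1 + C3) / L) + (A + 1) / L := by ring
  have hCL0 : 0 ≤ (1 + C3) / L := by positivity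
  have hxL : 0 ≤ x / L := by positivity
  have g1 : (1 + β / 4) * (1 + (1 + C3) / L) ≤ 1 + β / 4 + 2 * ((1 + C3) / L) := by
    have : (1 + β / 4) * (1 + (1 + C3) / L) = 1 + β / 4 + (1 + β / 4) * ((1 + C3) / L) := by ring
    rw [this]
    have := mul_le_mul_of_nonneg_right (show 1 + β / 4 ≤ 2 by linarith) hCL0
    linarith
  have g2 : 1 + β / 4 + 2 * ((1 + C3) / L) ≤ 1 + Real.log z / L - 2 * (β / 4) - A / L - β / 16 := by
    have f1 : β - 1 / L ≤ Real.log z / L := by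
      have : β - 1 / L = (β * L - 1) / L := by field_simp
      rw [this]
      exact div_le_div_of_nonneg_right hlz' hL0.le
    have f2 : (A + 1) / L = A / L + 1 / L := by ring
    linarith
  calc (1 + β / 4) * (Nat.primeCounting ⌊x⌋₊ : ℝ) ≤ (1 + β / 4) * (x / L * (1 + (1 + C3) / L)) :=
        mul_le_mul_of_nonneg_left hpi1 (by linarith)
    _ = x / L * ((1 + β / 4) * (1 + (1 + C3) / L)) := by ring
    _ ≤ x / L * (1 + Real.log z / L - 2 * (β / 4) - A / L - β / 16) :=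
        mul_le_mul_of_nonneg_left (g1.trans g2) hxL
    _ = x / L * (1 + Real.log z / L - 2 * (β / 4) - A / L) - β / 16 * (x / L) := by ring
    _ ≤ _ := by linarith

theorem sifted_card_le {x y : ℝ} {S : Finset ℤ} (h : Sifted x y S) : S.card ≤ ⌈x⌉₊ := by
  have hsub : S ⊆ Finset.Ico 0 (⌈x⌉₊ : ℤ) := by
    intro s hs
    rw [Finset.mem_Ico]
    refine ⟨(h.1 s hs).1, ?_⟩
    have : (s : ℝ) < (⌈x⌉₊ : ℝ) := lt_of_lt_of_le (h.1 s hs).2 (Nat.le_ceil _)
    exact_mod_cast this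
  have hc := Finset.card_le_card hsub
  rwa [Int.card_Ico, sub_zero, Int.toNat_natCast] at hc

theorem bdd_sifted (x y : ℝ) : BddAbove {k | ∃ S : Finset ℤ, S.card = k ∧ Sifted x y S} := by
  refine ⟨⌈x⌉₊, ?_⟩
  rintro k ⟨S, rfl, hS⟩
  exact sifted_card_le hS

theorem sifted_le {x y : ℝ} {S : Finset ℤ} (h : Sifted x y S) : S.card ≤ rhoUpTo x y :=
  le_csSup (bdd_sifted x y) ⟨S, rfl, h⟩

theorem exists_sifted (x y : ℝ) : ∃ S : Finset ℤ, S.card = rhoUpTo x y ∧ Sifted x y S := by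
  have hne : {k | ∃ S : Finset ℤ, S.card = k ∧ Sifted x y S}.Nonempty :=
    ⟨0, ∅, rfl, fun s hs => by simp at hs, fun q _ _ => ⟨0, fun s hs => by simp at hs⟩⟩
  exact Nat.sSup_mem hne (bdd_sifted x y)

theorem bdd_all (x : ℝ) : BddAbove {k | ∃ S : Finset ℤ, S.card = k ∧ (∀ s ∈ S, 0 ≤ s ∧ (s : ℝ) < x) ∧
    ∀ q : ℕ, q.Prime → MissesClass S q} := by
  refine ⟨⌈x⌉₊, ?_⟩
  rintro k ⟨S, rfl, hS, hS2⟩
  exact sifted_card_le (y := 0) ⟨hS, fun q hq _ => hS2 q hq⟩

theorem all_le {x : ℝ} {S : Finset ℤ} (h : ∀ s ∈ S, 0 ≤ s ∧ (s : ℝ) < x)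
    (h2 : ∀ q : ℕ, q.Prime → MissesClass S q) : S.card ≤ rhoStar x :=
  le_csSup (bdd_all x) ⟨S, rfl, h, h2⟩

theorem exists_all (x : ℝ) : ∃ S : Finset ℤ, S.card = rhoStar x ∧ (∀ s ∈ S, 0 ≤ s ∧ (s : ℝ) < x) ∧
    ∀ q : ℕ, q.Prime → MissesClass S q := by
  have hne : {k | ∃ S : Finset ℤ, S.card = k ∧ (∀ s ∈ S, 0 ≤ s ∧ (s : ℝ) < x) ∧
      ∀ q : ℕ, q.Prime → MissesClass S q}.Nonempty :=
    ⟨0, ∅, rfl, fun s hs => by simp at hs, fun q _ => ⟨0, fun s hs => by simp at hs⟩⟩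
  exact Nat.sSup_mem hne (bdd_all x)

theorem rhoStar_le (x y : ℝ) : rhoStar x ≤ rhoUpTo x y := by
  obtain ⟨S, h1, h2, h3⟩ := exists_all x
  rw [← h1]
  exact sifted_le ⟨h2, fun q hq _ => h3 q hq⟩

theorem lower : ∃ c : ℝ, 0 < c ∧ ∀ θ : ℝ, 0 < θ → θ < 1 → ∃ x₀ : ℝ, ∀ x : ℝ, x₀ ≤ x →
    (1 + c * ((1 - θ) / (1 + Real.log (1 / (1 - θ))))) * (Nat.primeCounting ⌊x⌋₊ : ℝ) ≤
      (rhoUpTo x (x ^ θ) : ℝ) := by
  obtain ⟨c, hc, h⟩ := lower_half
  refine ⟨c / 4, by positivity, fun θ hθ0 hθ1 => ?_⟩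
  rcases le_total (1 / 2) θ with hθ | hθ
  · obtain ⟨x₀, hx₀⟩ := (h θ hθ hθ1).exists_forall_of_atTop
    refine ⟨x₀, fun x hx => ?_⟩
    obtain ⟨T, hT1, hT2⟩ := hx₀ x hx
    have h1 := sifted_le hT1
    have h2 : (T.card : ℝ) ≤ (rhoUpTo x (x ^ θ) : ℝ) := by exact_mod_cast h1
    refine le_trans ?_ (hT2.trans h2)
    apply mul_le_mul_of_nonneg_right _ (by positivity)
    have h3 : 0 ≤ (1 - θ) / (1 + Real.log (1 / (1 - θ))) := by
      have : 0 ≤ Real.log (1 / (1 - θ)) := Real.log_nonneg (by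
        rw [le_div_iff₀ (by linarith)]
        linarith)
      have : 0 < 1 - θ := by linarith
      positivity
    have h4 := mul_le_mul_of_nonneg_right (show c / 4 ≤ c by linarith) h3
    linarith
  · have hev := (h (1 / 2) le_rfl (by norm_num)).and (eventually_ge_atTop 1)
    obtain ⟨x₀, hx₀⟩ := hev.exists_forall_of_atTop
    refine ⟨x₀, fun x hx => ?_⟩
    obtain ⟨⟨T, hT1, hT2⟩, hx1⟩ := hx₀ x hx
    have hT1' : Sifted x (x ^ θ) T := ⟨hT1.1, fun q hq hqy => hT1.2 q hq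
      (hqy.trans (Real.rpow_le_rpow_of_exponent_le hx1 hθ))⟩
    have h1 := sifted_le hT1'
    have h2 : (T.card : ℝ) ≤ (rhoUpTo x (x ^ θ) : ℝ) := by exact_mod_cast h1
    refine le_trans ?_ (hT2.trans h2)
    apply mul_le_mul_of_nonneg_right _ (by positivity)
    have h3 : (1 - θ) / (1 + Real.log (1 / (1 - θ))) ≤ 1 := by
      have : 0 ≤ Real.log (1 / (1 - θ)) := Real.log_nonneg (by
        rw [le_div_iff₀ (by linarith)]
        linarith)
      rw [div_le_one (by linarith)]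
      linarith
    have h4 : (1 : ℝ) / 4 ≤ (1 - 1 / 2) / (1 + Real.log (1 / (1 - 1 / 2))) := by
      have e : (1 : ℝ) / (1 - 1 / 2) = 2 := by norm_num
      rw [e]
      have := Real.log_two_lt_d9
      have := Real.log_two_gt_d9
      rw [div_le_div_iff₀ (by norm_num) (by linarith)]
      linarith
    have h5 : c / 4 * ((1 - θ) / (1 + Real.log (1 / (1 - θ)))) ≤ c / 4 * 1 :=
      mul_le_mul_of_nonneg_left h3 (by positivity)
    have h6 : c * (1 / 4) ≤ c * ((1 - 1 / 2) / (1 + Real.log (1 / (1 - 1 / 2)))) :=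
      mul_le_mul_of_nonneg_left h4 hc.le
    linarith

end

end Pool.Agent.RTH
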