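import Pool.Agent.H3.HR.Big

/-!
# Rankin's bound for the weights of smooth numbers
-/

set_option autoImplicit false

open Finset Filter Topology Pool.Agent.H6.HR

namespace Pool.Agent.RTH

noncomputable section

theorem sum_wt_pow {Q : Finset ℕ} (hQ : ∀ w ∈ Q, w.Prime) (V : ℕ) (s : ℝ) :
    ∑ m ∈ Pool.Agent.H6.HR.box Q V, wt Q m * (m : ℝ) ^ s =
      ∏ w ∈ Q, ∑ v ∈ range (V + 1), cf w v * ((w : ℝ) ^ s) ^ v := by
  classical
  induction Q using Finset.induction_on with
  | empty => simp [Pool.Agent.H6.HR.box, wt]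
  | insert w Q hwQ ih =>
    have hw := hQ w (Finset.mem_insert_self _ _)
    have hQ' : ∀ w ∈ Q, w.Prime := fun w' hw' => hQ w' (Finset.mem_insert_of_mem hw')
    rw [sum_box_insert V hw hQ' hwQ (fun m => (m : ℝ) ^ s), Finset.prod_insert hwQ, ← ih hQ', Finset.sum_mul]
    apply Finset.sum_congr rfl
    intro v _
    rw [mul_assoc, Finset.mul_sum, Finset.mul_sum, Finset.mul_sum]
    apply Finset.sum_congr rfl
    intro e _
    push_cast
    rw [Real.mul_rpow (by positivity) (by positivity), ← Real.rpow_natCast, ← Real.rpow_natCast,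
      ← Real.rpow_mul (by positivity), ← Real.rpow_mul (by positivity), mul_comm s]
    ring

theorem two_pow_quarter : (5 / 4 : ℝ) ≤ (2 : ℝ) ^ (3 / 4 : ℝ) := by
  have e2 : ((2 : ℝ) ^ (3 / 4 : ℝ)) ^ 4 = 8 := by
    rw [← Real.rpow_natCast, ← Real.rpow_mul (by norm_num)]
    norm_num
  have e3 : (0 : ℝ) < (2 : ℝ) ^ (3 / 4 : ℝ) := by positivity
  by_contra hcon
  push Not at hcon
  have e4 : ((2 : ℝ) ^ (3 / 4 : ℝ)) ^ 4 < (5 / 4 : ℝ) ^ 4 :=
    pow_lt_pow_left₀ hcon e3.le (by norm_num)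
  rw [e2] at e4
  norm_num at e4

/-- One factor. -/
theorem factor_le {w : ℕ} (hw : 2 ≤ w) (V : ℕ) {s : ℝ} (hs : 0 < s) (hs4 : s ≤ 1 / 4)
    (hsw : s * Real.log w ≤ 1) :
    ∑ v ∈ range (V + 1), cf w v * ((w : ℝ) ^ s) ^ v ≤ Real.exp (20 * s * (Real.log w / w)) := by
  have hw2 : (2 : ℝ) ≤ w := by exact_mod_cast hw
  have hw0 : (0 : ℝ) < w := by linarith
  set a := (w : ℝ) ^ s with ha
  have ha1 : 1 ≤ a := Real.one_le_rpow (by linarith) hs.le
  have ha2 : a ≤ 4 / 5 * w := by
    have h1 : a ≤ (w : ℝ) ^ (1 / 4 : ℝ) := Real.rpow_le_rpow_of_exponent_le (by linarith) hs4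
    have h2 : (w : ℝ) = (w : ℝ) ^ (1 / 4 : ℝ) * (w : ℝ) ^ (3 / 4 : ℝ) := by
      rw [← Real.rpow_add hw0]
      norm_num
    have h3 : (5 / 4 : ℝ) ≤ (w : ℝ) ^ (3 / 4 : ℝ) :=
      two_pow_quarter.trans (Real.rpow_le_rpow (by norm_num) hw2 (by norm_num))
    have h4 : 0 < (w : ℝ) ^ (1 / 4 : ℝ) := by positivity
    nlinarith
  have ha3 : a ≤ 1 + 2 * (s * Real.log w) := by
    have hl0 : 0 ≤ s * Real.log w := mul_nonneg hs.le (Real.log_nonneg (by linarith))
    have h1 : a = Real.exp (s * Real.log w) := by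
      rw [ha, Real.rpow_def_of_pos hw0, mul_comm]
    rw [h1]

    have h3 : Real.exp (s * Real.log w) ≤ 1 + s * Real.log w + (s * Real.log w) ^ 2 := by
      have := Real.abs_exp_sub_one_sub_id_le (x := s * Real.log w) (by rw [abs_of_nonneg hl0]; exact hsw)
      have := (abs_le.mp this).2
      linarith
    nlinarith
  have hsum : ∑ v ∈ range (V + 1), cf w v * a ^ v ≤ ((w : ℝ) - 2) / (w - 1) + a / (w - a) := by
    rw [Finset.sum_range_succ']
    have h0 : cf w 0 * a ^ 0 = ((w : ℝ) - 2) / (w - 1) := by simp [cf]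
    rw [h0, add_comm]
    apply add_le_add le_rfl
    have h1 : ∀ v ∈ range V, cf w (v + 1) * a ^ (v + 1) = (a / w) * (a / w) ^ v := by
      intro v _
      unfold cf
      rw [if_neg (by omega), ← pow_succ', div_pow, inv_mul_eq_div]
    rw [Finset.sum_congr rfl h1, ← Finset.mul_sum]
    have ht1 : a / w < 1 := by rw [div_lt_one hw0]; linarith
    have ht0 : 0 ≤ a / w := by positivity
    have h2 : ∑ v ∈ range V, (a / w) ^ v ≤ (1 - a / w)⁻¹ := by
      rw [← tsum_geometric_of_lt_one ht0 ht1]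
      exact (summable_geometric_of_lt_one ht0 ht1).sum_le_tsum _ (fun i _ => by positivity)
    calc a / w * ∑ v ∈ range V, (a / w) ^ v ≤ a / w * (1 - a / w)⁻¹ :=
          mul_le_mul_of_nonneg_left h2 ht0
      _ = a / (w - a) := by
          have : (w : ℝ) - a ≠ 0 := by linarith
          field_simp
  refine hsum.trans ?_
  have hwa : 0 < (w : ℝ) - a := by linarith
  have hw1 : 0 < (w : ℝ) - 1 := by linarith
  have e : ((w : ℝ) - 2) / (w - 1) + a / (w - a) = 1 + w * (a - 1) / ((w - a) * (w - 1)) := by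
    field_simp
    ring
  rw [e]
  have h1 : w * (a - 1) / ((w - a) * (w - 1)) ≤ 20 * s * (Real.log w / w) := by
    rw [div_le_iff₀ (by positivity)]
    have hl0 : 0 ≤ s * Real.log w := mul_nonneg hs.le (Real.log_nonneg (by linarith))
    have h2 : (w : ℝ) / 5 * (w / 2) ≤ (w - a) * (w - 1) :=
      mul_le_mul (by linarith) (by linarith) (by positivity) hwa.le
    calc (w : ℝ) * (a - 1) ≤ w * (2 * (s * Real.log w)) := mul_le_mul_of_nonneg_left (by linarith) hw0.le
      _ = 20 * s * (Real.log w / w) * ((w : ℝ) / 5 * (w / 2)) := by field_simp; ring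
      _ ≤ _ := mul_le_mul_of_nonneg_left h2 (by
          have : 0 ≤ Real.log w := Real.log_nonneg (by linarith)
          positivity)
  have := Real.add_one_le_exp (20 * s * (Real.log w / w))
  linarith

theorem mean_pow : ∃ E : ℝ, 1 ≤ E ∧ ∀ z V : ℕ, 60 ≤ z →
    ∑ m ∈ Pool.Agent.H6.HR.box (P z) V, wt (P z) m * (m : ℝ) ^ (1 / Real.log z) ≤ E := by
  obtain ⟨K, hK, h⟩ := Pool.Agent.CoprimeSieve.mertens_first
  refine ⟨Real.exp (20 * (1 + K)), Real.one_le_exp (by positivity), fun z V hz => ?_⟩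
  have hPz : ∀ w ∈ P z, w.Prime := fun w hw => (mem_P.mp hw).1
  have hz1 : (60 : ℝ) ≤ z := by exact_mod_cast hz
  have hlz : 4 ≤ Real.log z := by
    have h1 : Real.log 60 ≤ Real.log z := Real.log_le_log (by norm_num) hz1
    have h2 : (4 : ℝ) ≤ Real.log 60 := by
      rw [Real.le_log_iff_exp_le (by norm_num)]
      have h3 := Real.exp_one_lt_d9
      have h4 : Real.exp 4 = (Real.exp 1) ^ 4 := by rw [← Real.exp_nat_mul]; norm_num
      rw [h4]
      have h5 : (Real.exp 1) ^ 4 ≤ (2.7182818286 : ℝ) ^ 4 := pow_le_pow_left₀ (Real.exp_pos 1).le h3.le 4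
      refine h5.trans (by norm_num)
    linarith
  set s := 1 / Real.log z with hs
  have hs0 : 0 < s := by positivity
  have hs4 : s ≤ 1 / 4 := one_div_le_one_div_of_le (by norm_num) hlz
  rw [sum_wt_pow hPz]
  have h1 : ∏ w ∈ P z, ∑ v ∈ range (V + 1), cf w v * ((w : ℝ) ^ s) ^ v ≤
      ∏ w ∈ P z, Real.exp (20 * s * (Real.log w / w)) := by
    apply Finset.prod_le_prod
    · intro w hw
      apply Finset.sum_nonneg
      intro v _
      exact mul_nonneg (cf_nonneg (hPz w hw).two_le v) (by positivity)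
    · intro w hw
      apply factor_le (hPz w hw).two_le V hs0 hs4
      rw [hs, one_div, inv_mul_le_iff₀ (by linarith), mul_one]
      apply Real.log_le_log
      · exact_mod_cast (hPz w hw).pos
      · exact_mod_cast (mem_P.mp hw).2
  refine h1.trans ?_
  rw [← Real.exp_sum]
  apply Real.exp_le_exp.mpr
  rw [← Finset.mul_sum]
  have h2 := (abs_le.mp (h z (by linarith))).2
  have h3 : Pool.Agent.CoprimeSieve.mE z = ∑ w ∈ P z, Real.log w / w := by
    unfold Pool.Agent.CoprimeSieve.mE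
    rw [pr_eq]
  rw [h3] at h2
  have h4 : s * (∑ w ∈ P z, Real.log w / w) ≤ s * (Real.log z + K) :=
    mul_le_mul_of_nonneg_left (by linarith) hs0.le
  have h5 : s * Real.log z = 1 := by rw [hs]; field_simp
  have h6 : s * K ≤ K := by
    have := mul_le_mul_of_nonneg_right (show s ≤ 1 by linarith) hK
    linarith
  have h7 : s * (Real.log z + K) = s * Real.log z + s * K := by ring
  nlinarith

/-- The part of the weights above `X`. -/
theorem tail : ∃ E : ℝ, 1 ≤ E ∧ ∀ (z V : ℕ) (X : ℝ), 60 ≤ z → 1 ≤ X →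
    ∑ m ∈ (Pool.Agent.H6.HR.box (P z) V).filter (fun m : ℕ => ¬ (m : ℝ) ≤ X), wt (P z) m ≤
      E * X ^ (-(1 / Real.log z)) ∧
    ∑ m ∈ (Pool.Agent.H6.HR.box (P z) V).filter (fun m : ℕ => ¬ (m : ℝ) ≤ X), wt (P z) m * Real.log (2 * m) ≤
      (1 + Real.log X + Real.log z) * (E * X ^ (-(1 / Real.log z))) := by
  obtain ⟨E, hE, h⟩ := mean_pow
  refine ⟨E, hE, fun z V X hz hX => ?_⟩
  have hPz : ∀ w ∈ P z, w.Prime := fun w hw => (mem_P.mp hw).1
  have hz1 : (60 : ℝ) ≤ z := by exact_mod_cast hz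
  have hlz : 0 < Real.log z := Real.log_pos (by linarith)
  set s := 1 / Real.log z with hs
  have hs0 : 0 < s := by positivity
  have hX0 : 0 < X := by linarith
  have hlX : 0 ≤ Real.log X := Real.log_nonneg hX
  set B := (Pool.Agent.H6.HR.box (P z) V).filter (fun m : ℕ => ¬ (m : ℝ) ≤ X) with hB
  have hsum : ∑ m ∈ B, wt (P z) m * ((m : ℝ) / X) ^ s ≤ E * X ^ (-s) := by
    have h1 : ∑ m ∈ B, wt (P z) m * ((m : ℝ) / X) ^ s = (∑ m ∈ B, wt (P z) m * (m : ℝ) ^ s) * X ^ (-s) := by
      rw [Finset.sum_mul]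
      apply Finset.sum_congr rfl
      intro m _
      rw [Real.div_rpow (by positivity) hX0.le, Real.rpow_neg hX0.le]
      ring
    rw [h1]
    apply mul_le_mul_of_nonneg_right _ (by positivity)
    refine le_trans ?_ (h z V hz)
    apply Finset.sum_le_sum_of_subset_of_nonneg (Finset.filter_subset _ _)
    intro m _ _
    exact mul_nonneg (wt_nonneg hPz m) (by positivity)
  have hone : ∀ m ∈ B, 1 ≤ ((m : ℝ) / X) ^ s := by
    intro m hm
    have h1 : X ≤ m := (not_le.mp (Finset.mem_filter.mp hm).2).le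
    exact Real.one_le_rpow (by rw [le_div_iff₀ hX0]; linarith) hs0.le
  constructor
  · refine le_trans ?_ hsum
    apply Finset.sum_le_sum
    intro m hm
    exact le_mul_of_one_le_right (wt_nonneg hPz m) (hone m hm)
  · have h1 : ∑ m ∈ B, wt (P z) m * Real.log (2 * m) ≤
        ∑ m ∈ B, (1 + Real.log X + Real.log z) * (wt (P z) m * ((m : ℝ) / X) ^ s) := by
      apply Finset.sum_le_sum
      intro m hm
      have h2 : X ≤ m := (not_le.mp (Finset.mem_filter.mp hm).2).le
      have hm0 : (0 : ℝ) < m := by linarith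
      have h3 : Real.log (2 * m) = Real.log 2 + Real.log X + Real.log (m / X) := by
        rw [Real.log_div hm0.ne' hX0.ne', Real.log_mul (by norm_num) hm0.ne']
        ring
      have h4 : Real.log (m / X) ≤ ((m : ℝ) / X) ^ s / s := Real.log_le_rpow_div (by positivity) hs0
      have h5 : ((m : ℝ) / X) ^ s / s = ((m : ℝ) / X) ^ s * Real.log z := by
        rw [hs]
        field_simp
      have h6 := hone m hm
      have h7 := Real.log_two_lt_d9
      have h8 : Real.log (2 * m) ≤ (1 + Real.log X + Real.log z) * ((m : ℝ) / X) ^ s := by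
        have h9 : (Real.log 2 + Real.log X) * 1 ≤ (1 + Real.log X) * ((m : ℝ) / X) ^ s := by
          apply mul_le_mul (by linarith) h6 (by norm_num) (by linarith)
        rw [h5] at h4
        linarith
      calc wt (P z) m * Real.log (2 * m) ≤ wt (P z) m * ((1 + Real.log X + Real.log z) * ((m : ℝ) / X) ^ s) :=
            mul_le_mul_of_nonneg_left h8 (wt_nonneg hPz m)
        _ = _ := by ring
    refine h1.trans ?_
    rw [← Finset.mul_sum]
    exact mul_le_mul_of_nonneg_left hsum (by linarith)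

end

end Pool.Agent.RTH
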