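import Pool.Agent.RTH.Main

/-!
# Deleting the smallest classes modulo the primes above `x ^ θ`
-/

set_option autoImplicit false

open Finset Filter Topology Pool.Agent.CoprimeSieve

namespace Pool.Agent.RTH

noncomputable section

theorem small_class (S : Finset ℤ) (q : ℕ) (hq : 0 < q) :
    ∃ r : ℤ, (q : ℝ) * ((S.filter (fun s => (q : ℤ) ∣ s - r)).card : ℝ) ≤ S.card := by
  classical
  have hq' : (0 : ℤ) < q := by exact_mod_cast hq
  have h1 : S.card = ∑ r ∈ Finset.Ico (0 : ℤ) q, (S.filter (fun s => (q : ℤ) ∣ s - r)).card := by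
    rw [Finset.card_eq_sum_card_fiberwise (f := fun s : ℤ => s % q) (t := Finset.Ico (0 : ℤ) q)]
    · apply Finset.sum_congr rfl
      intro r hr
      rw [Finset.mem_Ico] at hr
      congr 1
      apply Finset.filter_congr
      intro s _
      constructor
      · intro h
        rw [← h]
        exact Int.dvd_self_sub_emod
      · intro h
        have h2 : r % q = s % q := Int.modEq_iff_dvd.mpr h
        rw [← h2, Int.emod_eq_of_lt hr.1 hr.2]
    · intro s _
      simp only [Finset.coe_Ico, Set.mem_Ico]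
      exact ⟨Int.emod_nonneg _ hq'.ne', Int.emod_lt_of_pos _ hq'⟩
  by_contra hcon
  push Not at hcon
  have h2 : ∑ r ∈ Finset.Ico (0 : ℤ) q, (S.card : ℝ) <
      ∑ r ∈ Finset.Ico (0 : ℤ) q, (q : ℝ) * ((S.filter (fun s => (q : ℤ) ∣ s - r)).card : ℝ) := by
    apply Finset.sum_lt_sum_of_nonempty
    · exact ⟨0, by rw [Finset.mem_Ico]; exact ⟨le_rfl, hq'⟩⟩
    · intro r _
      exact hcon r
  rw [Finset.sum_const, Int.card_Ico, sub_zero, Int.toNat_natCast, nsmul_eq_mul, ← Finset.mul_sum] at h2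
  have h3 : ∑ r ∈ Finset.Ico (0 : ℤ) q, ((S.filter (fun s => (q : ℤ) ∣ s - r)).card : ℝ) = S.card := by
    rw [h1]
    push_cast
    rfl
  rw [h3] at h2
  exact lt_irrefl _ h2

theorem misses_of_card_lt {S : Finset ℤ} {q : ℕ} (h : S.card < q) : MissesClass S q := by
  obtain ⟨r, hr⟩ := small_class S q (by omega)
  refine ⟨r, fun s hs hd => ?_⟩
  have h1 : 1 ≤ (S.filter (fun s => (q : ℤ) ∣ s - r)).card :=
    Finset.card_pos.mpr ⟨s, Finset.mem_filter.mpr ⟨hs, hd⟩⟩
  have h2 : (1 : ℝ) ≤ ((S.filter (fun s => (q : ℤ) ∣ s - r)).card : ℝ) := by exact_mod_cast h1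
  have h3 : (S.card : ℝ) < q := by exact_mod_cast h
  have h4 := mul_le_mul_of_nonneg_left h2 (show (0 : ℝ) ≤ q by positivity)
  linarith

theorem MissesClass.mono {S T : Finset ℤ} {q : ℕ} (h : MissesClass S q) (hTS : T ⊆ S) : MissesClass T q := by
  obtain ⟨r, hr⟩ := h
  exact ⟨r, fun s hs => hr s (hTS hs)⟩

theorem delete (Q : Finset ℕ) (hQ : ∀ q ∈ Q, 2 ≤ q) (S : Finset ℤ) : ∃ S' ⊆ S, (∀ q ∈ Q, MissesClass S' q) ∧
    (∏ q ∈ Q, (1 - 1 / (q : ℝ))) * (S.card : ℝ) ≤ (S'.card : ℝ) := by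
  classical
  induction Q using Finset.induction_on with
  | empty => exact ⟨S, Finset.Subset.refl _, fun q hq => by simp at hq, by simp⟩
  | insert w Q hwQ ih =>
    obtain ⟨S1, h1, h2, h3⟩ := ih (fun q hq => hQ q (Finset.mem_insert_of_mem hq))
    have hw2 : (2 : ℝ) ≤ w := by exact_mod_cast hQ w (Finset.mem_insert_self _ _)
    obtain ⟨r, hr⟩ := small_class S1 w (by
      have := hQ w (Finset.mem_insert_self _ _)
      omega)
    refine ⟨S1.filter (fun s => ¬ (w : ℤ) ∣ s - r), (Finset.filter_subset _ _).trans h1, ?_, ?_⟩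
    · intro q hq
      rw [Finset.mem_insert] at hq
      rcases hq with rfl | hq
      · exact ⟨r, fun s hs => (Finset.mem_filter.mp hs).2⟩
      · exact (h2 q hq).mono (Finset.filter_subset _ _)
    · rw [Finset.prod_insert hwQ]
      have h4 := Finset.card_filter_add_card_filter_not (s := S1) (fun s => (w : ℤ) ∣ s - r)
      have h5 : ((S1.filter (fun s => (w : ℤ) ∣ s - r)).card : ℝ) +
          ((S1.filter (fun s => ¬ (w : ℤ) ∣ s - r)).card : ℝ) = S1.card := by exact_mod_cast h4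
      have h6 : ((S1.filter (fun s => (w : ℤ) ∣ s - r)).card : ℝ) ≤ 1 / w * S1.card := by
        rw [one_div, ← div_eq_inv_mul, le_div_iff₀ (by linarith), mul_comm]
        exact hr
      have h7 : 0 ≤ 1 - 1 / (w : ℝ) := by
        have : 1 / (w : ℝ) ≤ 1 := by rw [div_le_one (by linarith)]; linarith
        linarith
      calc (1 - 1 / (w : ℝ)) * (∏ q ∈ Q, (1 - 1 / (q : ℝ))) * (S.card : ℝ)
          = (1 - 1 / (w : ℝ)) * ((∏ q ∈ Q, (1 - 1 / (q : ℝ))) * (S.card : ℝ)) := by ring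
        _ ≤ (1 - 1 / (w : ℝ)) * S1.card := mul_le_mul_of_nonneg_left h3 h7
        _ ≤ _ := by linarith

theorem prod_ge {Q : Finset ℕ} {a : ℝ} (ha : 2 ≤ a) (hQ : ∀ q ∈ Q, a < (q : ℝ)) :
    Real.exp (-((1 + 2 / a) * ∑ q ∈ Q, 1 / (q : ℝ))) ≤ ∏ q ∈ Q, (1 - 1 / (q : ℝ)) := by
  rw [Finset.mul_sum, ← Finset.sum_neg_distrib, Real.exp_sum]
  apply Finset.prod_le_prod
  · intro q _
    positivity
  · intro q hq
    have hqa := hQ q hq
    have hq0 : (0 : ℝ) < q := by linarith
    have hq1 : (0 : ℝ) < (q : ℝ) - 1 := by linarith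
    have h0 : 0 < 1 - 1 / (q : ℝ) := by
      have : 1 / (q : ℝ) < 1 := by rw [div_lt_one hq0]; linarith
      linarith
    rw [← Real.le_log_iff_exp_le h0]
    have h1 := Real.one_sub_inv_le_log_of_pos h0
    refine le_trans ?_ h1
    have e : 1 - (1 - 1 / (q : ℝ))⁻¹ = -(1 / ((q : ℝ) - 1)) := by
      have : (1 - 1 / (q : ℝ))⁻¹ = q / (q - 1) := by
        rw [show 1 - 1 / (q : ℝ) = (q - 1) / q by field_simp, inv_div]
      rw [this]
      field_simp
      ring
    rw [e]
    apply neg_le_neg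
    have h2 : 1 / ((q : ℝ) - 1) = (1 + 1 / (q - 1)) * (1 / q) := by
      field_simp
      ring
    rw [h2]
    apply mul_le_mul_of_nonneg_right _ (by positivity)
    have h3 : 1 / ((q : ℝ) - 1) ≤ 2 / a := by
      rw [div_le_div_iff₀ hq1 (by linarith)]
      linarith
    linarith

theorem upper (θ η : ℝ) (hθ0 : 0 < θ) (hθ1 : θ < 1) (hη : 0 < η) : ∃ x₀ : ℝ, ∀ x : ℝ, x₀ ≤ x →
    (1 - η) * θ * (rhoUpTo x (x ^ θ) : ℝ) ≤ (rhoStar x : ℝ) := by
  obtain ⟨C, hC, hM⟩ := mertens_second_upper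
  set C' := 1 + C / θ with hC'
  have hlim : Tendsto (fun x : ℝ => Real.exp (-((1 + 2 / x ^ θ) * (Real.log (1 / θ) + C' / Real.log x)))) atTop
      (𝓝 (Real.exp (-((1 + 0) * (Real.log (1 / θ) + 0))))) := by
    apply (Real.continuous_exp.tendsto _).comp
    apply Tendsto.neg
    apply Tendsto.mul
    · apply tendsto_const_nhds.add
      exact tendsto_const_nhds.div_atTop (tendsto_rpow_atTop hθ0)
    · apply tendsto_const_nhds.add
      exact tendsto_const_nhds.div_atTop Real.tendsto_log_atTop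
  have hval : Real.exp (-((1 + 0) * (Real.log (1 / θ) + 0))) = θ := by
    rw [one_div, Real.log_inv]
    simp only [add_zero, one_mul, neg_neg]
    exact Real.exp_log hθ0
  rw [hval] at hlim
  have hlt : (1 - η) * θ < θ := by nlinarith
  have hev := ((tendsto_order.1 hlim).1 _ hlt).and
    (((tendsto_rpow_atTop hθ0).eventually_ge_atTop 2).and
      ((Real.tendsto_log_atTop.eventually_ge_atTop 2).and (eventually_ge_atTop 4)))
  obtain ⟨x₀, hx₀⟩ := hev.exists_forall_of_atTop
  refine ⟨x₀, fun x hx => ?_⟩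
  obtain ⟨h1, h2, h3, h4⟩ := hx₀ x hx
  obtain ⟨S, hSc, hS⟩ := exists_sifted x (x ^ θ)
  set L := Real.log x with hL
  have hx0 : 0 < x := by linarith
  have hlθ : Real.log (x ^ θ) = θ * L := Real.log_rpow hx0 θ
  set a := x ^ θ with ha
  have hax : a ≤ x := by
    calc a ≤ x ^ (1 : ℝ) := Real.rpow_le_rpow_of_exponent_le (by linarith) hθ1.le
      _ = x := Real.rpow_one x
  set Q := (pr (x + 2)).filter (fun p : ℕ => a < (p : ℝ)) with hQ
  have hQ2 : ∀ q ∈ Q, 2 ≤ q := by
    intro q hq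
    exact (mem_pr.mp (Finset.mem_filter.mp hq).1).1.two_le
  obtain ⟨S', hS'S, hS'Q, hS'c⟩ := delete Q hQ2 S
  have hsum := hM a (x + 2) h2 (by linarith)
  have hlx2 : Real.log (x + 2) ≤ L + 1 := by
    have e1 : x + 2 = x * (1 + 2 / x) := by field_simp
    rw [e1, Real.log_mul hx0.ne' (by positivity)]
    have e2 := Real.log_le_sub_one_of_pos (show 0 < 1 + 2 / x by positivity)
    have e3 : 2 / x ≤ 1 := by rw [div_le_one hx0]; linarith
    linarith
  have hL0 : 0 < L := by linarith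
  have hratio : Real.log (Real.log (x + 2) / Real.log a) ≤ Real.log (1 / θ) + 1 / L := by
    have hl0 : 0 < Real.log (x + 2) := Real.log_pos (by linarith)
    rw [hlθ]
    have e1 : Real.log (x + 2) / (θ * L) ≤ (1 / θ) * (1 + 1 / L) := by
      rw [div_le_iff₀ (by positivity)]
      have : 1 / θ * (1 + 1 / L) * (θ * L) = L + 1 := by field_simp
      rw [this]
      exact hlx2
    have e2 := Real.log_le_log (by positivity) e1
    rw [Real.log_mul (by positivity) (by positivity)] at e2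
    have e3 := Real.log_le_sub_one_of_pos (show 0 < 1 + 1 / L by positivity)
    linarith
  have hsum2 : ∑ p ∈ Q, (1 : ℝ) / p ≤ Real.log (1 / θ) + C' / L := by
    have e1 : C' / L = 1 / L + C / (θ * L) := by
      rw [hC']
      field_simp
    rw [hlθ] at hsum hratio
    linarith
  have hprod := prod_ge (Q := Q) h2 (fun q hq => (Finset.mem_filter.mp hq).2)
  have hexp : Real.exp (-((1 + 2 / a) * (Real.log (1 / θ) + C' / L))) ≤
      Real.exp (-((1 + 2 / a) * ∑ q ∈ Q, 1 / (q : ℝ))) := by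
    apply Real.exp_le_exp.mpr
    apply neg_le_neg
    exact mul_le_mul_of_nonneg_left hsum2 (by positivity)
  have hfin : (1 - η) * θ * (S.card : ℝ) ≤ (S'.card : ℝ) := by
    refine le_trans ?_ hS'c
    apply mul_le_mul_of_nonneg_right _ (by positivity)
    exact (h1.le.trans hexp).trans hprod
  have hall : ∀ q : ℕ, q.Prime → MissesClass S' q := by
    intro q hq
    rcases le_or_gt (q : ℝ) a with hqa | hqa
    · exact (hS.2 q hq hqa).mono hS'S
    · rcases le_or_gt (q : ℝ) (x + 2) with hqx | hqx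
      · exact hS'Q q (Finset.mem_filter.mpr ⟨mem_pr.mpr ⟨hq, hqx⟩, hqa⟩)
      · apply misses_of_card_lt
        have e1 : S'.card ≤ ⌈x⌉₊ := (Finset.card_le_card hS'S).trans (sifted_card_le hS)
        have e2 : (⌈x⌉₊ : ℝ) < q := by
          have := Nat.ceil_lt_add_one hx0.le
          linarith
        have e3 : ⌈x⌉₊ < q := by exact_mod_cast e2
        omega
  have h5 := all_le (fun s hs => hS.1 s (hS'S hs)) hall
  have h6 : (S'.card : ℝ) ≤ (rhoStar x : ℝ) := by exact_mod_cast h5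
  rw [← hSc]
  exact hfin.trans h6

end

end Pool.Agent.RTH
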